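import Pool.Agent.H26R2.Kap2.Main

/-!
# Idempotents over group algebras and torsion-free normal subgroups

Let `K` be a field of characteristic zero, `G` any group and `N` a torsion-free normal subgroup of
`G` with a finite series of normal subgroups of `G` whose factors are periodic, or have finite
conjugacy classes in the quotient, or are abelian of finite rank, or are finitely generated linear
groups, or ... (`GoodSeries`).  Every idempotent matrix over `K[G]` which vanishes over `K[G/N]` is
zero, and if all idempotents of `K[G/N]` are trivial then so are those of `K[G]`.  There is no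
condition on `G/N`.
-/

set_option autoImplicit false

namespace Pool.Agent.Results.MP_b6f35e_al.DetectingSubgroups

open Pool.Agent.H26R2.IdemLI Pool.Agent.H26R2.Bass Pool.Agent.H26R2.Kap2

universe u v

/-- Let `K` be a field of characteristic zero, `G` a group and `N` a torsion-free normal subgroup of
`G` with a good series. Then every idempotent matrix over `K[G]` which vanishes over `K[G/N]` is
zero. If all idempotents of `K[G/N]` are `0` or `1`, then all idempotents of `K[G]` are `0`
or `1`. -/
theorem result (K : Type u) [Field K] [CharZero K] (G : Type v) [Group G] (N : Subgroup G)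
    [N.Normal] (htf : ∀ x ∈ N, ∀ n : ℕ, 0 < n → x ^ n = 1 → x = 1) (hN : GoodSeries K N) :
    (∀ (n : ℕ) (E : Matrix (Fin n) (Fin n) (MonoidAlgebra K G)), E * E = E →
      E.map (MonoidAlgebra.mapDomainRingHom K (QuotientGroup.mk' N)) = 0 → E = 0) ∧
    ((∀ a : MonoidAlgebra K (G ⧸ N), a * a = a → a = 0 ∨ a = 1) →
      ∀ a : MonoidAlgebra K G, a * a = a → a = 0 ∨ a = 1) := by
  have h := det_goodSeries (K := K) N hN htf
  exact ⟨h, fun hQ => triv_of_det N h hQ⟩

end Pool.Agent.Results.MP_b6f35e_al.DetectingSubgroups
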