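import Pool.Agent.X265.Orth.Fin

/-!
# Orthogonal groups of Witt index one over polynomial rings

`C` is any class of groups with the closure properties `ClosedE C` which contains all groups with an
abelian normal subgroup and cyclic quotient. All of this is known for the class of the groups that
satisfy the K-theoretic Farrell–Jones conjecture with coefficients and finite wreath products.

Let `K` be a field of characteristic different from `2` and let `H` be the Gram matrix of an anisotropic
symmetric bilinear form `h` on `K ^ n` (`n = 0` is allowed). The orthogonal sum of `h` and a hyperbolic
plane has the Gram matrix `gram H`, and `OG (gram H)` is its orthogonal group. Each nondegenerate form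
of Witt index one over `K` is isometric to such a form.

Outline of the proof. An isotropic vector over `K[X]` has coordinates `(a, v, b)` with
`2 a b + h(v) = 0`. Since `h` is anisotropic, the degree of `h(v)` is twice the degree of `v`. A
comparison of the degrees of `a` and `b` (ping-pong with an increasing degree) and a division with
remainder show that the orthogonal group over `K[X]` is the amalgamated product of the one over `K` and the
stabilizer `P(K[X])` of an isotropic line over `P(K)`. Here `P(K)` is a retract of `P(K[X])`
(value at `X = 0`) with abelian kernel. So the theorem on amalgamated products over retracts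
(`X176.FJ.Retr`) and the theorem on hyperabelian normal subgroups (`X201.FJ.HypAb`) apply.
-/

set_option autoImplicit false

namespace Pool.Agent.Results.MP_b6f35e_al.OrthogonalPolynomialGroups

open Pool.Agent.Y110.FJ Pool.Agent.X265.Orth Matrix

/-- Let `C` be a class of groups with the closure properties `ClosedE C` which contains all
abelian-by-cyclic groups. Let `K` be a field with `2 ≠ 0` and let `H` be the Gram matrix of an anisotropic
symmetric bilinear form over `K`. Then the orthogonal group over `K[X]` of the orthogonal sum of this form
and a hyperbolic plane is in `C` if and only if the orthogonal group over `K` is in `C`. -/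
theorem result (C : ∀ (G : Type) [Group G], Prop) (hC : ClosedE C)
    (hab : ∀ (H : Type) [Group H] (A : Subgroup H) [A.Normal], (∀ a ∈ A, ∀ b ∈ A, a * b = b * a) →
      IsCyclic (H ⧸ A) → C H)
    (K : Type) [Field K] (h2 : (2 : K) ≠ 0) (ι : Type) [Fintype ι] [DecidableEq ι]
    (H : Matrix ι ι K) (hs : Hᵀ = H) (hH : Aniso H) :
    C ↥(OG (gram (H.map (Polynomial.C : K →+* Polynomial K)))) ↔ C ↥(OG (gram H)) :=
  main hC hab h2 hs hH

end Pool.Agent.Results.MP_b6f35e_al.OrthogonalPolynomialGroups
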