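import Pool.Agent.X176.FJ.TAut

/-!
# Groups of triangular automorphisms of free products

`C` is any class of groups with the closure properties `ClosedE C`, all of which are known for the
class of the groups that satisfy the K- and L-theoretic Farrell–Jones conjecture with coefficients in
additive categories and finite wreath products.

Let `N` be the free product of groups `G i`, `i` in a set `ι` with a strict (partial) order `r`, and let
`T i` be a group of automorphisms of `G i`. `TF r T` is the group of the automorphisms `σ` of `N` which
move only finitely many factors and such that `σ` and its inverse map each `g` in `G i` to `w τ(g) w⁻¹`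
with `w` in the subgroup generated by the factors `G j`, `j < i`, and `τ` in `T i` (`w` and `τ` depend on
`σ` and `i`). For a finite index set these are all triangular automorphisms; if all `T i` are trivial they
form the upper triangular subgroup of the pure symmetric automorphism group of the free product.

The group `TF r T` and the semidirect product of `N` and `TF r T` are in `C` if and only if the groups
`G i ⋊ T i` are (for `TF r T` only one direction). The groups `G i` are arbitrary.

The proof: remove a maximal element `k` of the index set. The function `σ ↦ w⁻¹`, together with the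
restriction to the other factors, embeds the triangular group in the product of `T k` and of the
semidirect product of `N` with the triangular group of the other factors. The uniqueness of `w` follows
from a homomorphism of `N` to the unrestricted wreath product of `G k` and `N`. The semidirect product is
in `C` by the theorem on triangular actions.
-/

set_option autoImplicit false

namespace Pool.Agent.Results.MP_b6f35e_al.TriangularAutomorphismGroups

open Pool.Agent.Y110.FJ Pool.Agent.X176.FJ Monoid

/-- the semidirect product of the free product of the groups `G i` and the group `TF r T` -/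
abbrev Hol {ι : Type} {G : ι → Type} [∀ i, Group (G i)] (r : ι → ι → Prop) [IsStrictOrder ι r]
    (T : ∀ i, Subgroup (MulAut (G i))) : Type := CoprodI G ⋊[(TF r T).subtype] TF r T

/-- the semidirect product of a factor `G` and a group of its automorphisms -/
abbrev HolFactor (G : Type) [Group G] (T : Subgroup (MulAut G)) : Type := G ⋊[T.subtype] T

/-- all groups `G i ⋊ T i` are in the class -/
def FactorsIn (C : ∀ (G : Type) [Group G], Prop) {ι : Type} {G : ι → Type} [∀ i, Group (G i)]
    (T : ∀ i, Subgroup (MulAut (G i))) : Prop := ∀ i, C (HolFactor (G i) (T i))

theorem c_bot {C : ∀ (G : Type) [Group G], Prop} (hC : ClosedE C) (G : Type) [Group G] (h : C G) :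
    C (HolFactor G ⊥) := by
  have h1 : ∀ x : (⊥ : Subgroup (MulAut G)), x = 1 := fun x => Subsingleton.elim _ _
  let f : HolFactor G ⊥ →* G := MonoidHom.mk' (fun x => x.left) (by
    intro x y
    show x.left * ((x.right : MulAut G) y.left) = x.left * y.left
    rw [h1 x.right]
    rfl)
  refine hC.base.of_injective _ _ f ?_ h
  intro x y hxy
  exact SemidirectProduct.ext hxy ((h1 _).trans (h1 _).symm)

/-- the group `N ⋊ TF r T` is in the class if and only if all `G i ⋊ T i` are, and then so is `TF r T` -/
def InIff (C : ∀ (G : Type) [Group G], Prop) {ι : Type} {G : ι → Type} [∀ i, Group (G i)]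
    (r : ι → ι → Prop) [IsStrictOrder ι r] (T : ∀ i, Subgroup (MulAut (G i))) : Prop :=
  (C (Hol r T) ↔ FactorsIn C T) ∧ (FactorsIn C T → C (TF r T))

/-- **Groups of triangular automorphisms.** -/
theorem result (C : ∀ (G : Type) [Group G], Prop) (hC : ClosedE C) (ι : Type) (G : ι → Type)
    [∀ i, Group (G i)] (r : ι → ι → Prop) [IsStrictOrder ι r] :
    (∀ T : ∀ i, Subgroup (MulAut (G i)), InIff C r T) ∧
    ((∀ i, C (G i)) → C (TF (G := G) r fun _ => ⊥)) :=
  ⟨fun T => ⟨⟨of_tf_semi hC.base r T, tf_semi hC r T⟩, tf_c hC r T⟩,
    fun h => tf_c hC r _ fun i => c_bot hC _ (h i)⟩

end Pool.Agent.Results.MP_b6f35e_al.TriangularAutomorphismGroups
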